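import Mathlib
import Pool.Agent.BakerQi.Schwarz

set_option autoImplicit false

/-!
The family of entire functions of one variable attached to a linear form in logarithms and its
derivatives (number field version). This is a copy of `Pool.Agent.BakerK.Family` with another
condition of independence.
-/

namespace Pool.Agent.BakerH

open Complex Finset Polynomial Pool.Agent.BakerQi

/-- The analytic data of a hypothetical counterexample to Baker's theorem. The numbers `exp (lam j)`
(without the one with index `tor`, if there is one) and `exp mu` are multiplicatively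
independent. -/
structure Base where
  m : ℕ
  lam : Fin m → ℂ
  mu : ℂ
  beta : Fin m → ℂ
  beta0 : ℂ
  rel : mu = beta0 + ∑ j, beta j * lam j
  tor : Option (Fin m)
  indep : ∀ (k l : Fin m → ℕ) (a b : ℕ), (∏ j, exp (lam j) ^ k j) * exp mu ^ a =
    (∏ j, exp (lam j) ^ l j) * exp mu ^ b → a = b ∧ ∀ j, tor ≠ some j → k j = l j

/-- Indices of the monomials. -/
abbrev Idx (m D0 D1 : ℕ) := Fin D0 × (Fin m → Fin D1) × Fin D1

/-- `(d/dz + c)^σ z^k0`. -/
noncomputable def upoly {A : Type*} [CommRing A] (c : A) (σ k0 : ℕ) : A[X] :=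
  (fun P => derivative P + C c * P)^[σ] (X ^ k0)

theorem upoly_succ {A : Type*} [CommRing A] (c : A) (σ k0 : ℕ) :
    upoly c (σ + 1) k0 = derivative (upoly c σ k0) + C c * upoly c σ k0 := by
  rw [upoly, Function.iterate_succ_apply', ← upoly]

theorem upoly_zero {A : Type*} [CommRing A] (c : A) (k0 : ℕ) : upoly c 0 k0 = X ^ k0 := rfl

theorem map_upoly {A A' : Type*} [CommRing A] [CommRing A'] (f : A →+* A') (c : A) (σ k0 : ℕ) :
    (upoly c σ k0).map f = upoly (f c) σ k0 := by
  induction σ with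
  | zero => rw [upoly_zero, upoly_zero]; simp
  | succ σ ih =>
    rw [upoly_succ, upoly_succ, Polynomial.map_add, Polynomial.map_mul, Polynomial.map_C, ← ih,
      Polynomial.derivative_map]

namespace Base

variable (B : Base) {D0 D1 : ℕ}

/-- The frequency attached to an index. -/
noncomputable def freq (k : Idx B.m D0 D1) : ℂ :=
  ∑ j, ((k.2.1 j : ℕ) : ℂ) * B.lam j + ((k.2.2 : ℕ) : ℂ) * B.mu

/-- The algebraic factor. -/
noncomputable def cfac (k : Idx B.m D0 D1) (σ : Option (Fin B.m) → ℕ) : ℂ :=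
  ∏ j, (((k.2.1 j : ℕ) : ℂ) + ((k.2.2 : ℕ) : ℂ) * B.beta j) ^ σ (some j)

/-- The polynomial factor. -/
noncomputable def ufac (k : Idx B.m D0 D1) (σ : ℕ) : ℂ[X] :=
  upoly (((k.2.2 : ℕ) : ℂ) * B.beta0) σ (k.1 : ℕ)

/-- One term of the auxiliary function. -/
noncomputable def term (k : Idx B.m D0 D1) (σ : Option (Fin B.m) → ℕ) (z : ℂ) : ℂ :=
  B.cfac k σ * (B.ufac k (σ none)).eval z * exp (B.freq k * z)

/-- The auxiliary function and its derivatives. -/
noncomputable def phi (p : Idx B.m D0 D1 → ℤ) (σ : Option (Fin B.m) → ℕ) (z : ℂ) : ℂ :=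
  ∑ k, (p k : ℂ) * B.term k σ z

/-- The coefficients of the derivation along the line. -/
noncomputable def eta : Option (Fin B.m) → ℂ
  | none => 1
  | some j => B.lam j

theorem cfac_add_none (k : Idx B.m D0 D1) (σ : Option (Fin B.m) → ℕ) :
    B.cfac k (σ + Pi.single none 1) = B.cfac k σ := by
  unfold cfac
  refine Finset.prod_congr rfl fun j _ => ?_
  simp

theorem cfac_add_some (k : Idx B.m D0 D1) (σ : Option (Fin B.m) → ℕ) (j : Fin B.m) :
    B.cfac k (σ + Pi.single (some j) 1) =
      B.cfac k σ * (((k.2.1 j : ℕ) : ℂ) + ((k.2.2 : ℕ) : ℂ) * B.beta j) := by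
  unfold cfac
  rw [← Finset.mul_prod_erase univ _ (mem_univ j), ← Finset.mul_prod_erase univ _ (mem_univ j)]
  have h1 : (σ + Pi.single (some j) 1 : Option (Fin B.m) → ℕ) (some j) = σ (some j) + 1 := by
    simp
  have h2 : ∀ i ∈ univ.erase j, (σ + Pi.single (some j) 1 : Option (Fin B.m) → ℕ) (some i) =
      σ (some i) := by
    intro i hi
    have : i ≠ j := (mem_erase.1 hi).1
    simp [this]
  rw [h1, Finset.prod_congr rfl fun i hi => by rw [h2 i hi]]
  ring

theorem hasDerivAt_term (k : Idx B.m D0 D1) (σ : Option (Fin B.m) → ℕ) (z : ℂ) :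
    HasDerivAt (B.term k σ) (∑ i, B.eta i * B.term k (σ + Pi.single i 1) z) z := by
  have h1 : HasDerivAt (fun z => (B.ufac k (σ none)).eval z)
      ((derivative (B.ufac k (σ none))).eval z) z := Polynomial.hasDerivAt _ _
  have h2 : HasDerivAt (fun z => exp (B.freq k * z)) (exp (B.freq k * z) * (B.freq k * 1)) z :=
    ((hasDerivAt_id z).const_mul (B.freq k)).cexp
  have h3 := (h1.const_mul (B.cfac k σ)).mul h2
  have e : (∑ i, B.eta i * B.term k (σ + Pi.single i 1) z) =
      B.cfac k σ * (derivative (B.ufac k (σ none))).eval z * exp (B.freq k * z) +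
      B.cfac k σ * (B.ufac k (σ none)).eval z * (exp (B.freq k * z) * (B.freq k * 1)) := by
    rw [Fintype.sum_option]
    unfold term
    simp only [cfac_add_none, cfac_add_some]
    have e1 : (σ + Pi.single none 1 : Option (Fin B.m) → ℕ) none = σ none + 1 := by simp
    have e2 : ∀ j : Fin B.m, (σ + Pi.single (some j) 1 : Option (Fin B.m) → ℕ) none = σ none := by
      intro j; simp
    have e3 : B.ufac k (σ none + 1) = derivative (B.ufac k (σ none)) +
        C (((k.2.2 : ℕ) : ℂ) * B.beta0) * B.ufac k (σ none) := by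
      rw [ufac, upoly_succ]; rfl
    simp only [e1, e2, e3, eval_add, eval_mul, eval_C]
    have e4 : (∑ j, B.eta (some j) * (B.cfac k σ *
        (((k.2.1 j : ℕ) : ℂ) + ((k.2.2 : ℕ) : ℂ) * B.beta j) * (B.ufac k (σ none)).eval z *
          exp (B.freq k * z))) =
        (B.cfac k σ * (B.ufac k (σ none)).eval z * exp (B.freq k * z)) *
          (∑ j, ((k.2.1 j : ℕ) : ℂ) * B.lam j + ((k.2.2 : ℕ) : ℂ) * ∑ j, B.beta j * B.lam j) := by
      rw [Finset.mul_sum, ← Finset.sum_add_distrib, Finset.mul_sum]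
      refine Finset.sum_congr rfl fun j _ => ?_
      simp only [eta]
      ring
    rw [e4]
    have e5 : B.freq k = ∑ j, ((k.2.1 j : ℕ) : ℂ) * B.lam j + ((k.2.2 : ℕ) : ℂ) *
        (B.beta0 + ∑ j, B.beta j * B.lam j) := by
      rw [← B.rel]; rfl
    simp only [eta]
    rw [e5]
    ring
  rw [e]
  exact h3

theorem hasDerivAt_phi (p : Idx B.m D0 D1 → ℤ) (σ : Option (Fin B.m) → ℕ) (z : ℂ) :
    HasDerivAt (B.phi p σ) (∑ i, B.eta i * B.phi p (σ + Pi.single i 1) z) z := by
  have h : HasDerivAt (fun z => ∑ k, (p k : ℂ) * B.term k σ z)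
      (∑ k, (p k : ℂ) * ∑ i, B.eta i * B.term k (σ + Pi.single i 1) z) z :=
    HasDerivAt.fun_sum fun k _ => (B.hasDerivAt_term k σ z).const_mul _
  have e : (∑ i, B.eta i * B.phi p (σ + Pi.single i 1) z) =
      ∑ k, (p k : ℂ) * ∑ i, B.eta i * B.term k (σ + Pi.single i 1) z := by
    unfold phi
    simp only [Finset.mul_sum]
    rw [Finset.sum_comm]
    refine Finset.sum_congr rfl fun k _ => Finset.sum_congr rfl fun i _ => ?_
    ring
  rw [e]
  exact h

theorem differentiable_phi (p : Idx B.m D0 D1 → ℤ) (σ : Option (Fin B.m) → ℕ) :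
    Differentiable ℂ (B.phi p σ) := fun z => (B.hasDerivAt_phi p σ z).differentiableAt

theorem deriv_phi (p : Idx B.m D0 D1 → ℤ) (σ : Option (Fin B.m) → ℕ) :
    deriv (B.phi p σ) = fun z => ∑ i, B.eta i * B.phi p (σ + Pi.single i 1) z :=
  funext fun z => (B.hasDerivAt_phi p σ z).deriv

/-- If all `phi p σ` with `σ` in the box `[0,T)` vanish at `s`, then `phi p σ` vanishes to order
`r` at `s` for `σ` in the box `[0, T - r)`. -/
theorem iteratedDeriv_phi_eq_zero (p : Idx B.m D0 D1 → ℤ) (T : ℕ) (s : ℂ)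
    (h : ∀ σ : Option (Fin B.m) → ℕ, (∀ i, σ i < T) → B.phi p σ s = 0) (r : ℕ) :
    ∀ σ : Option (Fin B.m) → ℕ, (∀ i, σ i + r < T) → iteratedDeriv r (B.phi p σ) s = 0 := by
  induction r with
  | zero =>
    intro σ hσ
    rw [iteratedDeriv_zero]
    exact h σ fun i => by simpa using hσ i
  | succ r ih =>
    intro σ hσ
    rw [iteratedDeriv_succ', deriv_phi]
    have hs : ∀ i ∈ (univ : Finset (Option (Fin B.m))), ContDiffAt ℂ r
        (fun z => B.eta i * B.phi p (σ + Pi.single i 1) z) s := by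
      intro i _
      exact (contDiffAt_const.mul
        ((B.differentiable_phi p _).contDiff.contDiffAt))
    rw [iteratedDeriv_fun_sum hs]
    refine Finset.sum_eq_zero fun i _ => ?_
    rw [iteratedDeriv_const_mul_field]
    rw [ih, mul_zero]
    intro j
    have h1 := hσ j
    have h2 : (σ + Pi.single i 1 : Option (Fin B.m) → ℕ) j ≤ σ j + 1 := by
      rw [Pi.add_apply, Pi.single_apply]
      split_ifs <;> omega
    omega

theorem exp_freq_nat (k : Idx B.m D0 D1) (s : ℕ) :
    exp (B.freq k * s) = (∏ j, exp (B.lam j) ^ ((k.2.1 j : ℕ) * s)) *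
      exp B.mu ^ ((k.2.2 : ℕ) * s) := by
  unfold freq
  rw [add_mul, exp_add, Finset.sum_mul, exp_sum]
  congr 1
  · refine Finset.prod_congr rfl fun j _ => ?_
    rw [← exp_nat_mul]
    congr 1
    push_cast
    ring
  · rw [← exp_nat_mul]
    congr 1
    push_cast
    ring

end Base

end Pool.Agent.BakerH
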