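import Mathlib
import Pool.Agent.BakerH.Arith

set_option autoImplicit false

/-!
The arithmetic data over a number field and the first two steps of Baker's method.
-/

namespace Pool.Agent.BakerH

open Complex Finset Polynomial Pool.Agent.BakerQi

/-- The data of a hypothetical counterexample to Baker's theorem over the number field `K`
embedded by `φ`. -/
structure Data (K : Type*) [Field K] [NumberField K] (φ : K →+* ℂ) extends Base where
  a : ℕ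
  b : ℕ
  ha : 0 < a
  hb : 0 < b
  be : Fin m → K
  be0 : K
  al : Fin m → K
  am : K
  hbe : ∀ j, φ (be j) = beta j
  hbe0 : φ be0 = beta0
  hal : ∀ j, φ (al j) = exp (lam j)
  ham : φ am = exp mu
  ibe : ∀ j, IsIntegral ℤ ((b : K) * be j)
  ibe0 : IsIntegral ℤ ((b : K) * be0)
  ial : ∀ j, IsIntegral ℤ ((a : K) * al j)
  iam : IsIntegral ℤ ((a : K) * am)

namespace Data

variable {K : Type*} [Field K] [NumberField K] {φ : K →+* ℂ} (B : Data K φ) {D0 D1 : ℕ}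

/-- The values in the number field. -/
noncomputable def value (k : Idx B.m D0 D1) (σ : Option (Fin B.m) → ℕ) (s : ℕ) : K :=
  val B.be B.be0 B.al B.am k σ s

theorem map_value (k : Idx B.m D0 D1) (σ : Option (Fin B.m) → ℕ) (s : ℕ) :
    φ (B.value k σ s) = B.term k σ (s : ℂ) := by
  rw [value, map_val, Base.term, Base.exp_freq_nat, val]
  simp only [B.hbe, B.hbe0, B.hal, B.ham]
  rfl

/-- A common bound for all conjugates of the coefficients. -/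
noncomputable def hb' : ℝ := ∑ τ : K →+* ℂ, (‖τ B.be0‖ + ∑ j, ‖τ (B.be j)‖)

/-- A common bound for all conjugates of the exponentials. -/
noncomputable def ht : ℝ := ∑ τ : K →+* ℂ, (‖τ B.am‖ + ∑ j, ‖τ (B.al j)‖)

/-- The constant in the exponential bounds. -/
noncomputable def Lm : ℝ := B.Lam + (B.m + 1) * B.ht

theorem ht_nonneg : 0 ≤ B.ht := by unfold ht; positivity

theorem hb'_nonneg : 0 ≤ B.hb' := by unfold hb'; positivity

theorem Lm_nonneg : 0 ≤ B.Lm := by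
  have := B.Lam_nonneg
  have := B.ht_nonneg
  unfold Lm
  positivity

theorem Lam_le : B.Lam ≤ B.Lm := by
  have := B.ht_nonneg
  unfold Lm
  have : 0 ≤ ((B.m : ℝ) + 1) * B.ht := by positivity
  linarith

theorem ht_le : ((B.m : ℝ) + 1) * B.ht ≤ B.Lm := by
  have := B.Lam_nonneg
  unfold Lm
  linarith

theorem be0_le (τ : K →+* ℂ) : ‖τ B.be0‖ ≤ B.hb' := by
  have h1 := Finset.single_le_sum (f := fun τ : K →+* ℂ => ‖τ B.be0‖ + ∑ j, ‖τ (B.be j)‖)
    (fun _ _ => by positivity) (mem_univ τ)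
  have h2 : 0 ≤ ∑ j, ‖τ (B.be j)‖ := by positivity
  unfold hb'
  linarith

theorem be_le (τ : K →+* ℂ) (j : Fin B.m) : ‖τ (B.be j)‖ ≤ B.hb' := by
  have h1 := Finset.single_le_sum (f := fun τ : K →+* ℂ => ‖τ B.be0‖ + ∑ j, ‖τ (B.be j)‖)
    (fun _ _ => by positivity) (mem_univ τ)
  have h2 := Finset.single_le_sum (f := fun j => ‖τ (B.be j)‖)
    (fun _ _ => by positivity) (mem_univ j)
  have h3 := norm_nonneg (τ B.be0)
  unfold hb'
  linarith

theorem am_le (τ : K →+* ℂ) : ‖τ B.am‖ ≤ Real.exp B.ht := by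
  have h1 := Finset.single_le_sum (f := fun τ : K →+* ℂ => ‖τ B.am‖ + ∑ j, ‖τ (B.al j)‖)
    (fun _ _ => by positivity) (mem_univ τ)
  have h2 : 0 ≤ ∑ j, ‖τ (B.al j)‖ := by positivity
  have h3 := Real.add_one_le_exp B.ht
  have h4 : ‖τ B.am‖ ≤ B.ht := by
    unfold ht
    linarith
  linarith

theorem al_le (τ : K →+* ℂ) (j : Fin B.m) : ‖τ (B.al j)‖ ≤ Real.exp B.ht := by
  have h1 := Finset.single_le_sum (f := fun τ : K →+* ℂ => ‖τ B.am‖ + ∑ j, ‖τ (B.al j)‖)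
    (fun _ _ => by positivity) (mem_univ τ)
  have h2 := Finset.single_le_sum (f := fun j => ‖τ (B.al j)‖)
    (fun _ _ => by positivity) (mem_univ j)
  have h3 := norm_nonneg (τ B.am)
  have h5 := Real.add_one_le_exp B.ht
  have h4 : ‖τ (B.al j)‖ ≤ B.ht := by
    unfold ht
    linarith
  linarith

theorem bd_le : B.bd ≤ B.hb' := by
  have h1 := Finset.single_le_sum (f := fun τ : K →+* ℂ => ‖τ B.be0‖ + ∑ j, ‖τ (B.be j)‖)
    (fun _ _ => by positivity) (mem_univ φ)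
  unfold hb' Base.bd
  rw [← B.hbe0]
  simp only [← B.hbe]
  exact h1

theorem norm_value_le (τ : K →+* ℂ) (k : Idx B.m D0 D1)
    (σ : Option (Fin B.m) → ℕ) {T : ℕ} (hσ : ∀ i, σ i ≤ T) {X R : ℝ} (hX : 1 ≤ X)
    (hX' : D1 * (1 + B.hb') + D0 ≤ X) (hR : 1 ≤ R) {s : ℕ} (hs : (s : ℝ) ≤ R) :
    ‖τ (B.value k σ s)‖ ≤ X ^ ((B.m + 1) * T) * R ^ D0 * Real.exp (B.Lm * (D1 * R)) := by
  rw [value, map_val]
  refine (norm_val_le (bd := B.hb') (h := B.ht) (fun j => B.be_le τ j) (B.be0_le τ) B.ht_nonneg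
    (fun j => B.al_le τ j) (B.am_le τ) k σ hσ hX hX' hR hs).trans ?_
  have h1 := B.ht_le
  have hX0 : 0 ≤ X := by linarith
  have hR0 : 0 ≤ R := by linarith
  gcongr

/-- The common denominator. -/
def dn (T D1 S : ℕ) : ℕ := den B.a B.b B.m T D1 S

theorem dn_pos (T D1 S : ℕ) : 0 < B.dn T D1 S := den_pos B.ha B.hb _ _ _ _

theorem dn_mul_value (k : Idx B.m D0 D1) (σ : Option (Fin B.m) → ℕ) (T S s : ℕ)
    (hσ : ∀ i, σ i ≤ T) (hs : s ≤ S) :
    IsIntegral ℤ ((B.dn T D1 S : K) * B.value k σ s) := by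
  have h := den_mul_val_mem (integralClosure ℤ K).toSubring (a := B.a) (b := B.b) (be := B.be)
    (be0 := B.be0) (al := B.al) (am := B.am) B.ibe B.ibe0 B.ial B.iam k σ T S s hσ hs
  exact h

/-- The value of the auxiliary function in the number field. -/
noncomputable def pval (p : Idx B.m D0 D1 → ℤ) (σ : Option (Fin B.m) → ℕ) (s : ℕ) : K :=
  ∑ k, (p k : K) * B.value k σ s

theorem map_pval (p : Idx B.m D0 D1 → ℤ) (σ : Option (Fin B.m) → ℕ) (s : ℕ) :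
    φ (B.pval p σ s) = B.phi p σ (s : ℂ) := by
  rw [pval, map_sum, Base.phi]
  refine Finset.sum_congr rfl fun k _ => ?_
  rw [map_mul, map_intCast, map_value]

theorem dn_mul_pval (p : Idx B.m D0 D1 → ℤ) (σ : Option (Fin B.m) → ℕ) (T S s : ℕ)
    (hσ : ∀ i, σ i ≤ T) (hs : s ≤ S) :
    IsIntegral ℤ ((B.dn T D1 S : K) * B.pval p σ s) := by
  rw [pval, Finset.mul_sum]
  refine IsIntegral.sum _ fun k _ => ?_
  have e : (B.dn T D1 S : K) * ((p k : K) * B.value k σ s) =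
      (p k : K) * ((B.dn T D1 S : K) * B.value k σ s) := by ring
  rw [e]
  refine IsIntegral.mul ?_ (B.dn_mul_value k σ T S s hσ hs)
  exact isIntegral_algebraMap (R := ℤ) (A := K) (x := p k)

theorem norm_pval_le (τ : K →+* ℂ) (p : Idx B.m D0 D1 → ℤ) {P : ℝ} (hp : ∀ k, |(p k : ℝ)| ≤ P)
    (σ : Option (Fin B.m) → ℕ) {T : ℕ} (hσ : ∀ i, σ i ≤ T) {X R : ℝ} (hX : 1 ≤ X)
    (hX' : D1 * (1 + B.hb') + D0 ≤ X) (hR : 1 ≤ R) {s : ℕ} (hs : (s : ℝ) ≤ R) :
    ‖τ (B.pval p σ s)‖ ≤ Fintype.card (Idx B.m D0 D1) *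
      (P * (X ^ ((B.m + 1) * T) * R ^ D0 * Real.exp (B.Lm * (D1 * R)))) := by
  rw [pval, map_sum]
  refine (norm_sum_le _ _).trans ?_
  rw [← Finset.card_univ, ← nsmul_eq_mul]
  refine Finset.sum_le_card_nsmul _ _ _ fun k _ => ?_
  rw [map_mul, map_intCast, norm_mul]
  have h1 : ‖(p k : ℂ)‖ ≤ P := by
    rw [Complex.norm_intCast]
    exact_mod_cast hp k
  have h2 := B.norm_value_le τ k σ hσ hX hX' hR hs
  have h3 : 0 ≤ P := (norm_nonneg _).trans h1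
  gcongr

theorem card_Idx (m : ℕ) : Fintype.card (Idx m D0 D1) = D0 * (D1 ^ m * D1) := by
  simp [Idx]

open NumberField in
/-- Construction of the auxiliary function. -/
theorem exists_aux (D0 D1 T S : ℕ) (hT : 0 < T) (hS : 0 < S)
    (hcard : 2 * (T ^ (B.m + 1) * S * Module.finrank ℚ K) ≤ D0 * (D1 ^ B.m * D1)) {A : ℝ}
    (hA : 1 ≤ A) {C : ℝ}
    (hC : ∀ {α β : Type} [Fintype α] [Fintype β] [Nonempty α] (g : α → β → 𝓞 K),
      2 * (Fintype.card α * Module.finrank ℚ K) ≤ Fintype.card β →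
      ∀ A : ℝ, 1 ≤ A → (∀ i j, ∀ σ : K →+* ℂ, ‖σ ((g i j : 𝓞 K) : K)‖ ≤ A) →
      ∃ p : β → ℤ, p ≠ 0 ∧ (∀ i, ∑ j, (p j : 𝓞 K) * g i j = 0) ∧
        ∀ j, |(p j : ℝ)| ≤ Fintype.card β * (C * A))
    (hb : ∀ (τ : K →+* ℂ) (k : Idx B.m D0 D1) (σ : Option (Fin B.m) → ℕ) (s : ℕ),
      (∀ i, σ i < T) → s < S →
      (B.dn T D1 S : ℝ) * ‖τ (B.value k σ s)‖ ≤ A) :
    ∃ p : Idx B.m D0 D1 → ℤ, p ≠ 0 ∧
      (∀ σ : Option (Fin B.m) → ℕ, (∀ i, σ i < T) → ∀ s : ℕ, s < S → B.phi p σ (s : ℂ) = 0) ∧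
      ∀ k, |(p k : ℝ)| ≤ Fintype.card (Idx B.m D0 D1) * (C * A) := by
  classical
  let g : (Option (Fin B.m) → Fin T) × Fin S → Idx B.m D0 D1 → 𝓞 K := fun i k =>
    ⟨(B.dn T D1 S : K) * B.value k (fun j => (i.1 j : ℕ)) (i.2 : ℕ),
      B.dn_mul_value k (fun j => (i.1 j : ℕ)) T S (i.2 : ℕ) (fun j => (i.1 j).2.le) i.2.2.le⟩
  have : Nonempty (Fin T) := ⟨⟨0, hT⟩⟩
  have : Nonempty (Fin S) := ⟨⟨0, hS⟩⟩
  have hc : 2 * (Fintype.card ((Option (Fin B.m) → Fin T) × Fin S) * Module.finrank ℚ K) ≤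
      Fintype.card (Idx B.m D0 D1) := by
    rw [card_Idx]
    simpa [Fintype.card_option] using hcard
  obtain ⟨p, hp0, hp, hpn⟩ := hC g hc A hA fun i k τ => by
    change ‖τ ((B.dn T D1 S : K) * B.value k (fun j => (i.1 j : ℕ)) (i.2 : ℕ))‖ ≤ A
    rw [map_mul, map_natCast, norm_mul, Complex.norm_natCast]
    exact hb τ k _ _ (fun j => (i.1 j).2) i.2.2
  refine ⟨p, hp0, fun σ hσ s hs => ?_, hpn⟩
  have h1 := hp (fun j => ⟨σ j, hσ j⟩, ⟨s, hs⟩)
  have h2 : (B.dn T D1 S : K) * B.pval p σ s = 0 := by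
    have h3 := congrArg (algebraMap (𝓞 K) K) h1
    rw [map_sum, map_zero] at h3
    rw [← h3, pval, Finset.mul_sum]
    refine Finset.sum_congr rfl fun k _ => ?_
    rw [map_mul, map_intCast]
    change _ = (p k : K) * ((B.dn T D1 S : K) * B.value k σ s)
    ring
  have h3 : (B.dn T D1 S : K) ≠ 0 := by exact_mod_cast (B.dn_pos T D1 S).ne'
  have h4 := (mul_eq_zero.1 h2).resolve_left h3
  rw [← B.map_pval, h4, map_zero]

/-- Extrapolation. -/
theorem extrap (p : Idx B.m D0 D1 → ℤ) {P : ℝ} (hp : ∀ k, |(p k : ℝ)| ≤ P) (T τ S S' : ℕ)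
    (hS : S ≤ S') (hS' : 0 < S')
    (h : ∀ σ : Option (Fin B.m) → ℕ, (∀ i, σ i < T + τ) → ∀ s : ℕ, s < S →
      B.phi p σ (s : ℂ) = 0)
    {X : ℝ} (hX : 1 ≤ X) (hX' : D1 * (1 + B.hb') + D0 ≤ X)
    (hsmall : ((B.dn T D1 S' : ℝ) * (Fintype.card (Idx B.m D0 D1) *
      (P * (X ^ ((B.m + 1) * T) * (3 * S') ^ D0 * Real.exp (B.Lm * (D1 * (3 * S'))))))) ^
        Module.finrank ℚ K < 2 ^ (τ * S)) :
    ∀ σ : Option (Fin B.m) → ℕ, (∀ i, σ i < T) → ∀ s : ℕ, s < S' → B.phi p σ (s : ℂ) = 0 := by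
  intro σ hσ s hs
  have hS1 : (1 : ℝ) ≤ S' := by exact_mod_cast hS'
  have hX'' : D1 * (1 + B.bd) + D0 ≤ X := by
    refine le_trans ?_ hX'
    have := B.bd_le
    gcongr
  set M : ℝ := Fintype.card (Idx B.m D0 D1) *
      (P * (X ^ ((B.m + 1) * T) * (3 * S') ^ D0 * Real.exp (B.Lm * (D1 * (3 * S'))))) with hMdef
  by_contra hne
  have hP0 : 0 ≤ P := by
    by_contra hP
    apply hne
    rw [Base.phi]
    refine Finset.sum_eq_zero fun k _ => ?_
    exact absurd ((abs_nonneg _).trans (hp k)) hP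
  have hX0 : 0 ≤ X := by linarith
  have hM : ∀ z : ℂ, ‖z‖ ≤ 3 * S' → ‖B.phi p σ z‖ ≤ M := fun z hz =>
    (B.norm_phi_le p hp σ (fun i => (hσ i).le) hX hX'' (by linarith) hz).trans (by
      have := B.Lam_le
      rw [hMdef]
      gcongr)
  have h1 := schwarz (B.differentiable_phi p σ) τ S S' hS hS' (fun s hs r hr =>
    B.iteratedDeriv_phi_eq_zero p (T + τ) s (fun σ hσ => h σ hσ s hs) r σ fun i => by
      have := hσ i; omega) _ hM s hs
  have hdp : (0 : ℝ) < B.dn T D1 S' := by exact_mod_cast B.dn_pos T D1 S'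
  set x : K := (B.dn T D1 S' : K) * B.pval p σ s with hx
  have hxint : IsIntegral ℤ x := B.dn_mul_pval p σ T S' s (fun i => (hσ i).le) hs.le
  have hφx : φ x = (B.dn T D1 S' : ℂ) * B.phi p σ (s : ℂ) := by
    rw [hx, map_mul, map_natCast, map_pval]
  have hx0 : x ≠ 0 := by
    intro h0
    rw [h0, map_zero] at hφx
    exact (mul_ne_zero (by exact_mod_cast (B.dn_pos T D1 S').ne') hne) hφx.symm
  have hσx : ∀ τ' : K →+* ℂ, ‖τ' x‖ ≤ (B.dn T D1 S' : ℝ) * M := by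
    intro τ'
    rw [hx, map_mul, map_natCast, norm_mul, Complex.norm_natCast]
    have h5 : (s : ℝ) ≤ 3 * S' := by
      have : (s : ℝ) ≤ S' := by exact_mod_cast hs.le
      linarith
    have h6 := B.norm_pval_le τ' p hp σ (fun i => (hσ i).le) hX hX' (by linarith) h5
    gcongr
  have h4 := liouville φ x hx0 hxint _ hσx
  rw [hφx, norm_mul, Complex.norm_natCast] at h4
  have h5 : (0 : ℝ) < 2 ^ (τ * S) := by positivity
  rw [le_div_iff₀ h5] at h1
  have hM0 : 0 ≤ M := by rw [hMdef]; positivity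
  have hV0 : 0 ≤ (B.dn T D1 S' : ℝ) * M := by positivity
  have hn : Module.finrank ℚ K = (Module.finrank ℚ K - 1) + 1 := by
    have : 0 < Module.finrank ℚ K := Module.finrank_pos
    omega
  have h6 : (2 : ℝ) ^ (τ * S) ≤ ((B.dn T D1 S' : ℝ) * M) ^ Module.finrank ℚ K := by
    calc (2 : ℝ) ^ (τ * S) = 1 * 2 ^ (τ * S) := by ring
      _ ≤ ((B.dn T D1 S' : ℝ) * ‖B.phi p σ (s : ℂ)‖ *
          ((B.dn T D1 S' : ℝ) * M) ^ (Module.finrank ℚ K - 1)) * 2 ^ (τ * S) := by gcongr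
      _ = (B.dn T D1 S' : ℝ) * (‖B.phi p σ (s : ℂ)‖ * 2 ^ (τ * S)) *
          ((B.dn T D1 S' : ℝ) * M) ^ (Module.finrank ℚ K - 1) := by ring
      _ ≤ (B.dn T D1 S' : ℝ) * M *
          ((B.dn T D1 S' : ℝ) * M) ^ (Module.finrank ℚ K - 1) := by gcongr
      _ = ((B.dn T D1 S' : ℝ) * M) ^ Module.finrank ℚ K := by
          rw [← pow_succ', ← hn]
  linarith

end Data

end Pool.Agent.BakerH
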