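import Mathlib
import Pool.Agent.BakerH.Bounds
import Pool.Agent.BakerQi.ExpSum

set_option autoImplicit false

/-!
The last step of Baker's method: too many zeros force all coefficients to vanish.
-/

namespace Pool.Agent.BakerH

open Complex Finset Polynomial Pool.Agent.BakerQi

namespace Base

variable (B : Base) {D0 D1 : ℕ}

theorem card_Idx : Fintype.card (Idx B.m D0 D1) = D0 * (D1 ^ B.m * D1) := by
  simp [Idx]

/-- The multiplicative frequency. -/
noncomputable def theta (k : Idx B.m D0 D1) : ℂ := exp (B.freq k)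

theorem theta_eq (k : Idx B.m D0 D1) : B.theta k =
    (∏ j, exp (B.lam j) ^ (k.2.1 j : ℕ)) * exp B.mu ^ (k.2.2 : ℕ) := by
  have := B.exp_freq_nat k 1
  simpa [theta] using this

theorem theta_inj {k l : Idx B.m D0 D1} (h : B.theta k = B.theta l) :
    k.2.2 = l.2.2 ∧ ∀ j, B.tor ≠ some j → k.2.1 j = l.2.1 j := by
  rw [theta_eq, theta_eq] at h
  obtain ⟨h1, h2⟩ := B.indep (fun j => (k.2.1 j : ℕ)) (fun j => (l.2.1 j : ℕ)) _ _ h
  exact ⟨Fin.ext h1, fun j hj => Fin.ext (h2 j hj)⟩

/-- The coefficients of the powers of `z` in the part of the auxiliary function which belongs to a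
multiplicative frequency `θ` vanish. -/
theorem fibre (p : Idx B.m D0 D1 → ℤ) (S : ℕ) (σ : Option (Fin B.m) → ℕ) (hσ : σ none = 0)
    (h : ∀ s : ℕ, s < S → B.phi p σ (s : ℂ) = 0)
    (hS : D0 * (D1 ^ B.m * D1) * D0 ≤ S) (k₀ : Idx B.m D0 D1) :
    ∑ k with B.theta k = B.theta k₀ ∧ k.1 = k₀.1, (p k : ℂ) * B.cfac k σ = 0 := by
  classical
  set Θ : Finset ℂ := univ.image (fun k : Idx B.m D0 D1 => B.theta k) with hΘ
  have hΘ0 : ∀ θ ∈ Θ, θ ≠ 0 := by
    intro θ hθ
    obtain ⟨k, _, rfl⟩ := Finset.mem_image.1 hθ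
    exact exp_ne_zero _
  have hΘc : Θ.card ≤ D0 * (D1 ^ B.m * D1) := by
    rw [← B.card_Idx, ← Finset.card_univ]
    exact Finset.card_image_le
  let Q : ℂ → ℂ[X] := fun θ =>
    ∑ k ∈ univ.filter (fun k : Idx B.m D0 D1 => B.theta k = θ),
      C ((p k : ℂ) * B.cfac k σ) * X ^ (k.1 : ℕ)
  have hQ0 : ∀ θ ∈ Θ, Q θ = 0 := by
    refine expsum_eq_zero Θ hΘ0 D0 Q (fun θ _ i hi => ?_) fun s hs => ?_
    · simp only [Q]
      rw [finsetSum_coeff]
      refine Finset.sum_eq_zero fun k _ => ?_
      rw [coeff_C_mul, coeff_X_pow, if_neg, mul_zero]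
      have := k.1.2
      omega
    · have hs' : s < S := lt_of_lt_of_le (lt_of_lt_of_le hs (Nat.mul_le_mul_right _ hΘc)) hS
      have h1 := h s hs'
      rw [← h1, phi]
      rw [← Finset.sum_fiberwise_of_maps_to (s := univ) (t := Θ)
        (g := fun k : Idx B.m D0 D1 => B.theta k) (fun k _ => Finset.mem_image_of_mem _ (mem_univ k))]
      refine Finset.sum_congr rfl fun θ _ => ?_
      simp only [Q]
      rw [eval_finsetSum, Finset.sum_mul]
      refine Finset.sum_congr rfl fun k hk => ?_
      have hkθ : B.theta k = θ := (Finset.mem_filter.1 hk).2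
      rw [eval_mul, eval_C, ← hkθ]
      have h3 : exp (B.freq k * s) = B.theta k ^ s := by
        rw [theta, ← exp_nat_mul, mul_comm]
      unfold term
      rw [h3, hσ, ufac, upoly_zero]
      ring
  have h1 : (Q (B.theta k₀)).coeff (k₀.1 : ℕ) = 0 := by
    rw [hQ0 _ (Finset.mem_image_of_mem _ (mem_univ k₀)), coeff_zero]
  simp only [Q] at h1
  rw [finsetSum_coeff] at h1
  rw [← h1, ← Finset.filter_filter, Finset.sum_filter]
  refine Finset.sum_congr rfl fun k _ => ?_
  rw [coeff_C_mul, coeff_X_pow]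
  by_cases hk : k.1 = k₀.1
  · rw [if_pos hk, if_pos (by rw [hk]), mul_one]
  · rw [if_neg hk, if_neg (fun h2 => hk (Fin.ext h2.symm)), mul_zero]

/-- Conclusion: too many zeros force all coefficients to vanish. -/
theorem final (p : Idx B.m D0 D1 → ℤ) (T S : ℕ)
    (h : ∀ σ : Option (Fin B.m) → ℕ, (∀ i, σ i < T) → ∀ s : ℕ, s < S → B.phi p σ (s : ℂ) = 0)
    (hT : D1 ≤ T) (hT0 : 0 < T) (hS : D0 * (D1 ^ B.m * D1) * D0 ≤ S) : p = 0 := by
  classical
  funext k₀
  cases htor : B.tor with
  | none =>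
    have h1 := B.fibre p S (fun _ => 0) rfl (h _ fun _ => hT0) hS k₀
    have h2 : (univ.filter fun k : Idx B.m D0 D1 => B.theta k = B.theta k₀ ∧ k.1 = k₀.1) =
        {k₀} := by
      ext k
      simp only [Finset.mem_filter, mem_univ, true_and, Finset.mem_singleton]
      constructor
      · rintro ⟨e1, e2⟩
        obtain ⟨e3, e4⟩ := B.theta_inj e1
        exact Prod.ext e2 (Prod.ext (funext fun j => e4 j (by rw [htor]; simp)) e3)
      · rintro rfl
        exact ⟨rfl, rfl⟩
    rw [h2, Finset.sum_singleton] at h1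
    have h3 : B.cfac k₀ (fun _ => 0) = 1 := by
      unfold cfac
      exact Finset.prod_eq_one fun j _ => pow_zero _
    rw [h3, mul_one] at h1
    exact_mod_cast h1
  | some j₀ =>
    -- the Vandermonde argument
    let v : Fin D1 → ℂ := fun κ => ∑ k ∈ univ.filter (fun k : Idx B.m D0 D1 =>
      (B.theta k = B.theta k₀ ∧ k.1 = k₀.1) ∧ k.2.1 j₀ = κ), (p k : ℂ)
    have hv : v = 0 := by
      refine Matrix.eq_zero_of_forall_pow_sum_mul_pow_eq_zero
        (f := fun κ : Fin D1 => ((κ : ℕ) : ℂ) + ((k₀.2.2 : ℕ) : ℂ) * B.beta j₀) ?_ ?_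
      · intro κ κ' hκ
        have h1 := add_right_cancel hκ
        exact Fin.ext (by exact_mod_cast h1)
      · intro i
        have h1 := B.fibre p S (fun j => if j = some j₀ then (i : ℕ) else 0)
          (if_neg (by simp)) (h _ fun j => by
            split_ifs
            · exact lt_of_lt_of_le i.2 hT
            · exact hT0) hS k₀
        rw [← h1]
        rw [← Finset.sum_fiberwise_of_maps_to
          (s := univ.filter (fun k : Idx B.m D0 D1 => B.theta k = B.theta k₀ ∧ k.1 = k₀.1))
          (t := (univ : Finset (Fin D1))) (g := fun k => k.2.1 j₀) (fun k _ => mem_univ _)]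
        refine Finset.sum_congr rfl fun κ _ => ?_
        simp only [v]
        rw [Finset.filter_filter, Finset.sum_mul]
        refine Finset.sum_congr rfl fun k hk => ?_
        obtain ⟨⟨e1, -⟩, e3⟩ := (Finset.mem_filter.1 hk).2
        congr 1
        unfold cfac
        rw [Finset.prod_eq_single j₀]
        · beta_reduce
          rw [if_pos rfl, e3, (B.theta_inj e1).1]
        · intro j _ hj
          beta_reduce
          rw [if_neg (fun h2 => hj (Option.some.inj h2)), pow_zero]
        · intro h2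
          exact absurd (mem_univ _) h2
    have h6 := congrFun hv (k₀.2.1 j₀)
    simp only [v, Pi.zero_apply] at h6
    have h7 : univ.filter (fun k : Idx B.m D0 D1 =>
        (B.theta k = B.theta k₀ ∧ k.1 = k₀.1) ∧ k.2.1 j₀ = k₀.2.1 j₀) = {k₀} := by
      ext k
      simp only [Finset.mem_filter, mem_univ, true_and, Finset.mem_singleton]
      constructor
      · rintro ⟨⟨e1, e2⟩, e5⟩
        obtain ⟨e3, e4⟩ := B.theta_inj e1
        refine Prod.ext e2 (Prod.ext (funext fun j => ?_) e3)
        by_cases hj : j = j₀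
        · rw [hj, e5]
        · exact e4 j (by rw [htor]; intro h2; exact hj (Option.some.inj h2).symm)
      · rintro rfl
        exact ⟨⟨rfl, rfl⟩, rfl⟩
    rw [h7, Finset.sum_singleton] at h6
    exact_mod_cast h6

end Base

end Pool.Agent.BakerH
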