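import Mathlib
import Pool.Agent.BakerH.Core
import Pool.Agent.BakerK.Baker

set_option autoImplicit false

/-!
Baker's theorem: if `exp λ_j` is algebraic for all `j` and the numbers `λ_j` are linearly independent
over `ℚ`, then `1` and the `λ_j` are linearly independent over the field of algebraic numbers.
-/

namespace Pool.Agent.BakerH

open Complex Finset

variable (F : IntermediateField ℚ ℂ)

/-- A nontrivial vanishing homogeneous linear form over `F` in `n` logarithms which are linearly
independent over the rational numbers. -/
structure Rel (n : ℕ) where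
  lam : Fin n → ℂ
  beta : Fin n → ℂ
  hlam : ∀ j, exp (lam j) ∈ F
  hbeta : ∀ j, beta j ∈ F
  ne : beta ≠ 0
  rel : ∑ j, beta j * lam j = 0
  ind : ∀ c : Fin n → ℤ, ∑ j, (c j : ℂ) * lam j = 0 → c = 0

variable {F} in
/-- Eliminating the index `k`. -/
theorem Rel.elim [FiniteDimensional ℚ F] {m : ℕ} (R : Rel F (m + 1)) (k : Fin (m + 1))
    (hk : R.beta k ≠ 0) (tor : Option (Fin m))
    (hind : ∀ (e f : Fin m → ℕ) (a b : ℕ),
      (∏ j, exp (R.lam (k.succAbove j)) ^ e j) * exp (R.lam k) ^ a =
      (∏ j, exp (R.lam (k.succAbove j)) ^ f j) * exp (R.lam k) ^ b →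
      a = b ∧ ∀ j, tor ≠ some j → e j = f j) : False := by
  have : NumberField F := ⟨⟩
  obtain ⟨a, ha, ha'⟩ := BakerK.exists_common_den (K := F)
    (fun j => (⟨exp (R.lam j), R.hlam j⟩ : F))
  have hm : ∀ j : Fin m, -R.beta (k.succAbove j) / R.beta k ∈ F := fun j =>
    F.div_mem (F.neg_mem (R.hbeta _)) (R.hbeta _)
  obtain ⟨b, hb, hb'⟩ := BakerK.exists_common_den (K := F)
    (fun j : Fin m => (⟨_, hm j⟩ : F))
  refine Data.elim (F := F) (φ := (algebraMap F ℂ))
    { m := m
      lam := fun j => R.lam (k.succAbove j)
      mu := R.lam k
      beta := fun j => -R.beta (k.succAbove j) / R.beta k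
      beta0 := 0
      a := a
      b := b
      ha := ha
      hb := hb
      be := fun j => ⟨_, hm j⟩
      be0 := 0
      al := fun j => ⟨exp (R.lam (k.succAbove j)), R.hlam _⟩
      am := ⟨exp (R.lam k), R.hlam _⟩
      hal := fun j => rfl
      ham := rfl
      hbe := fun j => rfl
      hbe0 := map_zero _
      ial := fun j => ha' _
      iam := ha' _
      ibe := fun j => hb' j
      ibe0 := by rw [mul_zero]; exact isIntegral_zero
      rel := ?_
      tor := tor
      indep := hind }
  have h1 := R.rel
  rw [Fin.sum_univ_succAbove _ k] at h1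
  have h2 : ∑ j : Fin m, -R.beta (k.succAbove j) / R.beta k * R.lam (k.succAbove j) =
      -(1 / R.beta k) * ∑ j : Fin m, R.beta (k.succAbove j) * R.lam (k.succAbove j) := by
    rw [Finset.mul_sum]
    refine Finset.sum_congr rfl fun j _ => ?_
    ring
  rw [h2]
  field_simp
  linear_combination h1

/-- There is no nontrivial vanishing homogeneous linear form. -/
theorem not_rel [FiniteDimensional ℚ F] (n : ℕ) : IsEmpty (Rel F n) := by
  refine ⟨fun R => ?_⟩
  cases n with
  | zero => exact R.ne (Subsingleton.elim _ _)
  | succ m =>
    by_cases hind : ∀ e f : Fin (m + 1) → ℕ, ∏ j, exp (R.lam j) ^ e j =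
      ∏ j, exp (R.lam j) ^ f j → e = f
    · obtain ⟨k, hk⟩ := Function.ne_iff.1 R.ne
      refine R.elim k hk none fun e f a b h => ?_
      have h1 := hind (k.insertNth a e) (k.insertNth b f) (by
        rw [Fin.prod_univ_succAbove _ k, Fin.prod_univ_succAbove _ k]
        simp only [Fin.insertNth_apply_same, Fin.insertNth_apply_succAbove]
        rw [mul_comm, h, mul_comm])
      refine ⟨?_, fun j _ => ?_⟩
      · have := congrFun h1 k
        simpa using this
      · have := congrFun h1 (k.succAbove j)
        simpa using this
    · push Not at hind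
      obtain ⟨e, f, hef, hne⟩ := hind
      obtain ⟨i₀, hi₀⟩ : ∃ j, e j ≠ f j := by
        by_contra hall
        push Not at hall
        exact hne (funext hall)
      rw [BakerK.exp_prod_pow, BakerK.exp_prod_pow, exp_eq_exp_iff_exists_int] at hef
      obtain ⟨N, hN⟩ := hef
      set c : Fin (m + 1) → ℤ := fun i => (e i : ℤ) - (f i : ℤ) with hc
      have hc0 : c i₀ ≠ 0 := by
        intro h
        apply hi₀
        simp only [hc] at h
        omega
      have hc0' : (c i₀ : ℂ) ≠ 0 := by exact_mod_cast hc0
      have hsum : ∑ j, (c j : ℂ) * R.lam j = N * (2 * Real.pi * I) := by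
        have h1 : ∑ j, (c j : ℂ) * R.lam j = ∑ j, (e j : ℂ) * R.lam j - ∑ j, (f j : ℂ) * R.lam j := by
          rw [← Finset.sum_sub_distrib]
          refine Finset.sum_congr rfl fun j _ => ?_
          simp only [hc]
          push_cast; ring
        rw [h1]
        linear_combination hN
      have hN0 : N ≠ 0 := by
        intro h0
        rw [h0, Int.cast_zero, zero_mul] at hsum
        exact hc0 (congrFun (R.ind c hsum) i₀)
      have hN0' : (N : ℂ) ≠ 0 := by exact_mod_cast hN0
      have hcm : ∀ j, (c j : ℂ) ∈ F := fun j => intCast_mem F (c j)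
      have hNm : (N : ℂ) ∈ F := intCast_mem F N
      let R' : Rel F (m + 1) :=
        { lam := Function.update R.lam i₀ (2 * Real.pi * I)
          beta := Function.update (fun j => R.beta j - R.beta i₀ * (c j : ℂ) / (c i₀ : ℂ)) i₀
            (R.beta i₀ * N / (c i₀ : ℂ))
          hlam := by
            intro j
            by_cases hj : j = i₀
            · rw [hj, Function.update_self, exp_two_pi_mul_I]
              exact F.one_mem
            · rw [Function.update_of_ne hj]; exact R.hlam j
          hbeta := by
            intro j
            by_cases hj : j = i₀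
            · rw [hj, Function.update_self]
              exact F.div_mem (F.mul_mem (R.hbeta _) hNm) (hcm _)
            · rw [Function.update_of_ne hj]
              exact F.sub_mem (R.hbeta _) (F.div_mem (F.mul_mem (R.hbeta _) (hcm _)) (hcm _))
          ne := by
            intro h
            apply R.ne
            have h1 := congrFun h i₀
            rw [Function.update_self, Pi.zero_apply, div_eq_zero_iff, or_iff_left hc0',
              mul_eq_zero, or_iff_left hN0'] at h1
            funext j
            by_cases hj : j = i₀
            · rw [hj, h1]; rfl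
            · have h2 := congrFun h j
              rw [Function.update_of_ne hj, h1, zero_mul, zero_div, sub_zero] at h2
              exact h2
          rel := by
            have h1 := R.rel
            rw [Fin.sum_univ_succAbove _ i₀] at h1 hsum ⊢
            simp only [Function.update_self, Function.update_of_ne (Fin.succAbove_ne i₀ _)]
            have h2 : ∑ j : Fin m, (R.beta (i₀.succAbove j) -
                R.beta i₀ * (c (i₀.succAbove j) : ℂ) / (c i₀ : ℂ)) * R.lam (i₀.succAbove j) =
                ∑ j : Fin m, R.beta (i₀.succAbove j) * R.lam (i₀.succAbove j) -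
                R.beta i₀ / (c i₀ : ℂ) *
                  ∑ j : Fin m, (c (i₀.succAbove j) : ℂ) * R.lam (i₀.succAbove j) := by
              rw [Finset.mul_sum, ← Finset.sum_sub_distrib]
              refine Finset.sum_congr rfl fun j _ => ?_
              ring
            have h3 : ∑ j : Fin m, (c (i₀.succAbove j) : ℂ) * R.lam (i₀.succAbove j) =
                N * (2 * Real.pi * I) - (c i₀ : ℂ) * R.lam i₀ := by linear_combination hsum
            rw [h2, h3]
            have h4 : R.beta i₀ / (c i₀ : ℂ) * (N * (2 * Real.pi * I) - (c i₀ : ℂ) * R.lam i₀) =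
                R.beta i₀ * N / (c i₀ : ℂ) * (2 * Real.pi * I) - R.beta i₀ * R.lam i₀ := by
              field_simp
            rw [h4]
            linear_combination h1
          ind := by
            intro g hg
            rw [Fin.sum_univ_succAbove _ i₀] at hg
            simp only [Function.update_self, Function.update_of_ne (Fin.succAbove_ne i₀ _)] at hg
            rw [Fin.sum_univ_succAbove _ i₀] at hsum
            have h1 := R.ind (i₀.insertNth (g i₀ * c i₀)
              (fun j => N * g (i₀.succAbove j) + g i₀ * c (i₀.succAbove j))) (by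
              rw [Fin.sum_univ_succAbove _ i₀]
              simp only [Fin.insertNth_apply_same, Fin.insertNth_apply_succAbove]
              have h2 : ∑ j : Fin m, ((N * g (i₀.succAbove j) + g i₀ * c (i₀.succAbove j) : ℤ) : ℂ) *
                  R.lam (i₀.succAbove j) =
                  N * ∑ j : Fin m, (g (i₀.succAbove j) : ℂ) * R.lam (i₀.succAbove j) +
                  g i₀ * ∑ j : Fin m, (c (i₀.succAbove j) : ℂ) * R.lam (i₀.succAbove j) := by
                rw [Finset.mul_sum, Finset.mul_sum, ← Finset.sum_add_distrib]
                refine Finset.sum_congr rfl fun j _ => ?_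
                push_cast; ring
              rw [h2]
              push_cast
              linear_combination (N : ℂ) * hg + (g i₀ : ℂ) * hsum)
            have h3 : g i₀ = 0 := by
              have := congrFun h1 i₀
              rw [Fin.insertNth_apply_same, Pi.zero_apply] at this
              exact (mul_eq_zero.1 this).resolve_right hc0
            funext j
            by_cases hj : j = i₀
            · rw [hj, h3]; rfl
            · obtain ⟨j', rfl⟩ := Fin.exists_succAbove_eq hj
              have := congrFun h1 (i₀.succAbove j')
              rw [Fin.insertNth_apply_succAbove, h3, zero_mul, add_zero, Pi.zero_apply] at this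
              exact (mul_eq_zero.1 this).resolve_left hN0 }
      have hlam₀ : R'.lam i₀ = 2 * Real.pi * I := Function.update_self _ _ _
      have h2pi : (2 * Real.pi * I : ℂ) ≠ 0 := two_pi_I_ne_zero
      obtain ⟨k, hk, hki⟩ : ∃ k, R'.beta k ≠ 0 ∧ k ≠ i₀ := by
        by_contra hcon
        push Not at hcon
        have h1 := R'.rel
        rw [Finset.sum_eq_single i₀ (fun j _ hj => by
          by_cases hb : R'.beta j = 0
          · rw [hb, zero_mul]
          · exact absurd (hcon j hb) hj) (fun h => absurd (mem_univ _) h), hlam₀] at h1
        have h2 := (mul_eq_zero.1 h1).resolve_right h2pi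
        apply R'.ne
        funext j
        by_cases hb : R'.beta j = 0
        · exact hb
        · rw [hcon j hb, h2]; rfl
      obtain ⟨j₀, hj₀⟩ := Fin.exists_succAbove_eq hki.symm
      refine R'.elim k hk (some j₀) fun e' f' a b h => ?_
      rw [BakerK.exp_prod_pow (fun j => R'.lam (k.succAbove j)),
        BakerK.exp_prod_pow (fun j => R'.lam (k.succAbove j)), ← exp_nat_mul, ← exp_nat_mul,
        ← exp_add, ← exp_add, exp_eq_exp_iff_exists_int] at h
      obtain ⟨M, hM⟩ := h
      have h1 := R'.ind (k.insertNth ((a : ℤ) - b)
        (fun j => (e' j : ℤ) - f' j - if j = j₀ then M else 0)) (by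
        rw [Fin.sum_univ_succAbove _ k]
        simp only [Fin.insertNth_apply_same, Fin.insertNth_apply_succAbove]
        have h2 : ∑ j : Fin m, (((e' j : ℤ) - f' j - (if j = j₀ then M else 0) : ℤ) : ℂ) *
            R'.lam (k.succAbove j) = ∑ j : Fin m, (e' j : ℂ) * R'.lam (k.succAbove j) -
            ∑ j : Fin m, (f' j : ℂ) * R'.lam (k.succAbove j) -
            ∑ j : Fin m, (if j = j₀ then (M : ℂ) * R'.lam (k.succAbove j) else 0) := by
          rw [← Finset.sum_sub_distrib, ← Finset.sum_sub_distrib]
          refine Finset.sum_congr rfl fun j _ => ?_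
          split_ifs <;> push_cast <;> ring
        rw [h2, Finset.sum_ite_eq', if_pos (mem_univ _), hj₀, hlam₀]
        push_cast
        linear_combination hM)
      refine ⟨?_, fun j hj => ?_⟩
      · have := congrFun h1 k
        rw [Fin.insertNth_apply_same, Pi.zero_apply] at this
        omega
      · have := congrFun h1 (k.succAbove j)
        rw [Fin.insertNth_apply_succAbove, Pi.zero_apply,
          if_neg (fun h2 => hj (by rw [h2]))] at this
        omega

/-- **Baker's theorem.** -/
theorem baker {ι : Type*} [Fintype ι] (lam beta : ι → ℂ) (beta0 : ℂ)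
    (hlam : ∀ j, IsAlgebraic ℚ (exp (lam j))) (hind : LinearIndependent ℚ lam)
    (hbeta : ∀ j, IsAlgebraic ℚ (beta j)) (hbeta0 : IsAlgebraic ℚ beta0)
    (h : beta0 + ∑ j, beta j * lam j = 0) : beta0 = 0 ∧ ∀ j, beta j = 0 := by
  have h00 : beta0 = 0 := by
    by_contra h0
    exact BakerK.baker lam beta beta0 hlam hbeta hbeta0 h0 h
  refine ⟨h00, ?_⟩
  rw [h00, zero_add] at h
  let S : Set ℂ := Set.range (fun j => exp (lam j)) ∪ Set.range beta
  have hSfin : Finite S := by
    have : S.Finite := (Set.finite_range _).union (Set.finite_range _)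
    exact this
  have hSalg : ∀ x ∈ S, IsIntegral ℚ x := by
    intro x hx
    rcases hx with ⟨j, rfl⟩ | ⟨j, rfl⟩
    · exact (hlam j).isIntegral
    · exact (hbeta j).isIntegral
  let F : IntermediateField ℚ ℂ := IntermediateField.adjoin ℚ S
  have : FiniteDimensional ℚ F := IntermediateField.finiteDimensional_adjoin hSalg
  have hSF : S ⊆ F := IntermediateField.subset_adjoin ℚ S
  let e := Fintype.equivFin ι
  by_contra hne
  refine (not_rel F (Fintype.card ι)).false
    { lam := fun j => lam (e.symm j)
      beta := fun j => beta (e.symm j)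
      hlam := fun j => hSF (Or.inl ⟨_, rfl⟩)
      hbeta := fun j => hSF (Or.inr ⟨_, rfl⟩)
      ne := fun h0 => hne fun j => by
        have := congrFun h0 (e j)
        simpa using this
      rel := by
        rw [← h]
        exact Equiv.sum_comp e.symm (fun j => beta j * lam j)
      ind := ?_ }
  intro c hc
  rw [Fintype.linearIndependent_iff] at hind
  have h1 := hind (fun j => (c (e j) : ℚ)) (by
    rw [← hc, ← Equiv.sum_comp e.symm]
    refine Finset.sum_congr rfl fun j _ => ?_
    rw [Equiv.apply_symm_apply, Rat.smul_def]
    push_cast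
    rfl)
  funext j
  have h2 := h1 (e.symm j)
  rw [Equiv.apply_symm_apply] at h2
  exact_mod_cast h2

/-- **The theorem of Gelfond and Schneider.** If `a ≠ 0` and `exp a` and `exp (a b)` are
algebraic, then `b` is rational or transcendental. -/
theorem gelfond_schneider {a b : ℂ} (ha0 : a ≠ 0) (ha : IsAlgebraic ℚ (exp a))
    (hb : IsAlgebraic ℚ b) (hab : IsAlgebraic ℚ (exp (a * b))) : ∃ q : ℚ, b = q := by
  by_contra hcon
  push Not at hcon
  have hind : LinearIndependent ℚ ![a, a * b] := by
    rw [LinearIndependent.pair_iff]
    intro s t hst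
    rw [Rat.smul_def, Rat.smul_def] at hst
    have h1 : a * ((s : ℂ) + t * b) = 0 := by linear_combination hst
    have h2 := (mul_eq_zero.1 h1).resolve_left ha0
    by_cases ht : t = 0
    · rw [ht, Rat.cast_zero, zero_mul, add_zero] at h2
      exact ⟨by exact_mod_cast h2, ht⟩
    · exfalso
      apply hcon (-s / t)
      have ht' : (t : ℂ) ≠ 0 := by exact_mod_cast ht
      push_cast
      field_simp
      linear_combination h2
  have h1 := baker ![a, a * b] ![b, -1] 0 (by
    intro j
    fin_cases j
    · exact ha
    · exact hab) hind (by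
    intro j
    fin_cases j
    · exact hb
    · exact isAlgebraic_one.neg) isAlgebraic_zero (by
    simp [Fin.sum_univ_two]; ring)
  have h2 := h1.2 1
  simp at h2

end Pool.Agent.BakerH
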