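import Mathlib
import Pool.Agent.BakerH.Baker

set_option autoImplicit false

/-!
The exceptional pattern for the five numbers `π + e`, `π e`, `π ^ e`, `e ^ e`, `π ^ π`: linear forms in
`π`, `e`, `e log π`, `π log π` if `π ^ e`, `e ^ e`, `π ^ π` are algebraic.
-/

namespace Pool.Agent.BakerH

open Complex Finset

private theorem alg_I : IsAlgebraic ℚ I := by
  refine ⟨Polynomial.X ^ 2 + 1, ?_, ?_⟩
  · intro h
    have := congrArg (Polynomial.eval 0) h
    simp at this
  · simp

private theorem alg_exp_ofReal {x : ℝ} (h : IsAlgebraic ℚ (Real.exp x)) :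
    IsAlgebraic ℚ (exp (x : ℂ)) := by
  rw [← Complex.ofReal_exp]
  exact BakerK.isAlgebraic_ofReal h

private theorem alg_exp_pi_I : IsAlgebraic ℚ (exp ((Real.pi : ℂ) * I)) := by
  rw [exp_pi_mul_I]
  exact isAlgebraic_one.neg

private theorem powC : Real.pi ^ Real.exp 1 = Real.exp (Real.exp 1 * Real.log Real.pi) := by
  rw [Real.rpow_def_of_pos Real.pi_pos, mul_comm]

private theorem powD : Real.exp 1 ^ Real.exp 1 = Real.exp (Real.exp 1) := by
  rw [Real.rpow_def_of_pos (Real.exp_pos 1), Real.log_exp, one_mul]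

private theorem powE : Real.pi ^ Real.pi = Real.exp (Real.pi * Real.log Real.pi) := by
  rw [Real.rpow_def_of_pos Real.pi_pos, mul_comm]

private theorem log_pi_pos : 0 < Real.log Real.pi :=
  Real.log_pos (by have := Real.pi_gt_three; linarith)

/-- If `exp x` is algebraic and `x` is real, not `0`, then `x / π` is transcendental. -/
theorem not_rat_mul_pi {x : ℝ} (hx : x ≠ 0) (h : IsAlgebraic ℚ (Real.exp x)) (q : ℚ) :
    x ≠ q * Real.pi := by
  intro hq
  have hpi : (Real.pi : ℂ) * I ≠ 0 :=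
    mul_ne_zero (by exact_mod_cast Real.pi_ne_zero) I_ne_zero
  have h1 : (Real.pi : ℂ) * I * (-(q : ℂ) * I) = (x : ℂ) := by
    rw [hq]
    push_cast
    linear_combination (-(q : ℂ) * Real.pi) * I_mul_I
  obtain ⟨r, hr⟩ := gelfond_schneider (a := (Real.pi : ℂ) * I) (b := -(q : ℂ) * I) hpi
    alg_exp_pi_I ((isAlgebraic_algebraMap (q : ℚ)).neg.mul alg_I) (by
      rw [h1]
      exact alg_exp_ofReal h)
  have h2 := congrArg Complex.im hr
  have h3 : (q : ℝ) = 0 := by
    simpa using h2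
  apply hx
  rw [hq, h3, zero_mul]

/-- Rational independence of `π i` and real numbers. -/
private theorem ind_cons {n : ℕ} {x : Fin n → ℝ} (hx : LinearIndependent ℚ x) :
    LinearIndependent ℚ (Fin.cons ((Real.pi : ℂ) * I) (fun j => ((x j : ℝ) : ℂ)) : Fin (n + 1) → ℂ) := by
  rw [Fintype.linearIndependent_iff] at hx ⊢
  intro g hg
  rw [Fin.sum_univ_succ] at hg
  simp only [Fin.cons_zero, Fin.cons_succ, Rat.smul_def] at hg
  have him := congrArg Complex.im hg
  have hre := congrArg Complex.re hg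
  simp only [add_im, im_sum, zero_im, add_re, re_sum, zero_re] at him hre
  have h0 : g 0 = 0 := by
    have h1 : (g 0 : ℝ) * Real.pi = 0 := by
      simpa using him
    have h2 := (mul_eq_zero.1 h1).resolve_right Real.pi_ne_zero
    exact_mod_cast h2
  have h1 : ∑ j, g j.succ • x j = 0 := by
    rw [← hre, h0]
    simp [Rat.smul_def]
  intro j
  refine Fin.cases h0 (fun j => ?_) j
  exact hx (fun j => g j.succ) h1 j

/-- Baker's theorem for `π i` and logarithms of real algebraic numbers which are linearly independent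
over the rational numbers. -/
theorem baker_pi {n : ℕ} {x : Fin n → ℝ} (hx : LinearIndependent ℚ x)
    (hexp : ∀ j, IsAlgebraic ℚ (Real.exp (x j))) {a : ℂ} {b : Fin n → ℂ} (ha : IsAlgebraic ℚ a)
    (hb : ∀ j, IsAlgebraic ℚ (b j))
    (h : IsAlgebraic ℚ (a * (Real.pi : ℂ) + ∑ j, b j * ((x j : ℝ) : ℂ))) :
    a = 0 ∧ ∀ j, b j = 0 := by
  have h1 := baker (Fin.cons ((Real.pi : ℂ) * I) (fun j => ((x j : ℝ) : ℂ)) : Fin (n + 1) → ℂ)
    (Fin.cons (-(a * I)) b) (-(a * (Real.pi : ℂ) + ∑ j, b j * ((x j : ℝ) : ℂ)))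
    (fun j => by
      refine Fin.cases ?_ (fun j => ?_) j
      · exact alg_exp_pi_I
      · exact alg_exp_ofReal (hexp j)) (ind_cons hx)
    (fun j => by
      refine Fin.cases ?_ (fun j => ?_) j
      · exact (ha.mul alg_I).neg
      · exact hb j) h.neg (by
    rw [Fin.sum_univ_succ]
    simp only [Fin.cons_zero, Fin.cons_succ]
    linear_combination (-(a * (Real.pi : ℂ))) * I_mul_I)
  refine ⟨?_, fun j => ?_⟩
  · have h2 := h1.2 0
    rw [Fin.cons_zero, neg_eq_zero] at h2
    exact (mul_eq_zero.1 h2).resolve_right I_ne_zero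
  · have h2 := h1.2 j.succ
    rwa [Fin.cons_succ] at h2

/-- If `e ^ e` is algebraic, then `a π + b e` is transcendental for all algebraic numbers `a` and
`b` which are not both `0`. -/
theorem of_D (hD : IsAlgebraic ℚ (Real.exp 1 ^ Real.exp 1)) {a b : ℂ} (ha : IsAlgebraic ℚ a)
    (hb : IsAlgebraic ℚ b) (hne : a ≠ 0 ∨ b ≠ 0) :
    Transcendental ℚ (a * (Real.pi : ℂ) + b * (Real.exp 1 : ℝ)) := by
  intro h
  rw [powD] at hD
  have h1 := baker_pi (x := ![Real.exp 1]) (by
    rw [linearIndependent_unique_iff]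
    exact (Real.exp_pos 1).ne') (fun j => by fin_cases j; exact hD) ha (b := ![b])
    (fun j => by fin_cases j; exact hb) (by simpa using h)
  rcases hne with h2 | h2
  · exact h2 h1.1
  · exact h2 (h1.2 0)

private theorem ind_CD (hl : ∀ q : ℚ, Real.log Real.pi ≠ q) :
    LinearIndependent ℚ ![Real.exp 1, Real.exp 1 * Real.log Real.pi] := by
  have he := Real.exp_pos 1
  rw [LinearIndependent.pair_iff]
  intro s t hst
  rw [Rat.smul_def, Rat.smul_def] at hst
  have h1 : Real.exp 1 * ((s : ℝ) + t * Real.log Real.pi) = 0 := by linear_combination hst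
  have h2 := (mul_eq_zero.1 h1).resolve_left he.ne'
  by_cases ht : t = 0
  · rw [ht, Rat.cast_zero, zero_mul, add_zero] at h2
    exact ⟨by exact_mod_cast h2, ht⟩
  · exfalso
    apply hl (-s / t)
    have ht' : (t : ℝ) ≠ 0 := by exact_mod_cast ht
    push_cast
    field_simp
    linear_combination h2

/-- If `π ^ π` is algebraic, then `log π` is irrational. -/
theorem log_pi_ne_rat (hE : IsAlgebraic ℚ (Real.pi ^ Real.pi)) (q : ℚ) :
    Real.log Real.pi ≠ q := by
  intro h
  rw [powE] at hE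
  have hl := log_pi_pos
  refine not_rat_mul_pi (x := Real.pi * Real.log Real.pi) (mul_pos Real.pi_pos hl).ne' hE q ?_
  rw [h]
  ring

/-- **The exceptional pattern.** If `π ^ e`, `e ^ e` and `π ^ π` are algebraic and `a`, `b`, `c`, `d`
are algebraic numbers, not all `0`, then `a π + b e + c e log π + d π log π` is transcendental,
except if it is `0` and `a = 0`, `d ≠ 0` and `b / d`, `c / d` are rational. -/
theorem of_CDE (hC : IsAlgebraic ℚ (Real.pi ^ Real.exp 1))
    (hD : IsAlgebraic ℚ (Real.exp 1 ^ Real.exp 1)) (hE : IsAlgebraic ℚ (Real.pi ^ Real.pi))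
    {a b c d : ℂ} (ha : IsAlgebraic ℚ a) (hb : IsAlgebraic ℚ b) (hc : IsAlgebraic ℚ c)
    (hd : IsAlgebraic ℚ d) (hne : a ≠ 0 ∨ b ≠ 0 ∨ c ≠ 0 ∨ d ≠ 0) :
    Transcendental ℚ (a * (Real.pi : ℂ) + b * (Real.exp 1 : ℝ) +
      c * ((Real.exp 1 * Real.log Real.pi : ℝ) : ℂ) +
      d * ((Real.pi * Real.log Real.pi : ℝ) : ℂ)) ∨
    (a = 0 ∧ d ≠ 0 ∧ (∃ q : ℚ, b = q * d) ∧ (∃ q : ℚ, c = q * d) ∧
      b * (Real.exp 1 : ℝ) + c * ((Real.exp 1 * Real.log Real.pi : ℝ) : ℂ) +
        d * ((Real.pi * Real.log Real.pi : ℝ) : ℂ) = 0) := by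
  have hlr := log_pi_ne_rat hE
  have hind := ind_CD hlr
  have hC' := hC
  have hD' := hD
  have hE' := hE
  rw [powC] at hC'
  rw [powD] at hD'
  rw [powE] at hE'
  by_cases h3 : LinearIndependent ℚ
      ![Real.pi * Real.log Real.pi, Real.exp 1, Real.exp 1 * Real.log Real.pi]
  · left
    intro h
    have h1 := baker_pi h3 (fun j => by
      fin_cases j
      · exact hE'
      · exact hD'
      · exact hC') ha (b := ![d, b, c]) (fun j => by
      fin_cases j
      · exact hd
      · exact hb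
      · exact hc) (by
      refine (congrArg (IsAlgebraic ℚ) ?_).mp h
      rw [Fin.sum_univ_three]
      simp only [Matrix.cons_val_zero, Matrix.cons_val_one, Matrix.cons_val]
      ring)
    rcases hne with h2 | h2 | h2 | h2
    · exact h2 h1.1
    · exact h2 (h1.2 1)
    · exact h2 (h1.2 2)
    · exact h2 (h1.2 0)
  · -- `π log π = s e + t e log π`
    have h4 : ∃ s t : ℚ, Real.pi * Real.log Real.pi =
        s * Real.exp 1 + t * (Real.exp 1 * Real.log Real.pi) := by
      have h5 : Real.pi * Real.log Real.pi ∈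
          Submodule.span ℚ (Set.range ![Real.exp 1, Real.exp 1 * Real.log Real.pi]) := by
        by_contra h6
        exact h3 (linearIndependent_finCons.2 ⟨hind, h6⟩)
      rw [Matrix.range_cons, Matrix.range_cons, Matrix.range_empty, Set.union_empty,
        Set.singleton_union, Submodule.mem_span_pair] at h5
      obtain ⟨s, t, hst⟩ := h5
      exact ⟨s, t, by rw [← hst, Rat.smul_def, Rat.smul_def]⟩
    obtain ⟨s, t, hst⟩ := h4
    by_cases h : IsAlgebraic ℚ (a * (Real.pi : ℂ) + b * (Real.exp 1 : ℝ) +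
      c * ((Real.exp 1 * Real.log Real.pi : ℝ) : ℂ) +
      d * ((Real.pi * Real.log Real.pi : ℝ) : ℂ))
    swap
    · exact Or.inl h
    right
    have hs : IsAlgebraic ℚ (s : ℂ) := isAlgebraic_algebraMap (s : ℚ)
    have ht : IsAlgebraic ℚ (t : ℂ) := isAlgebraic_algebraMap (t : ℚ)
    have h1 := baker_pi hind (fun j => by
      fin_cases j
      · exact hD'
      · exact hC') ha (b := ![b + d * s, c + d * t]) (fun j => by
      fin_cases j
      · exact hb.add (hd.mul hs)
      · exact hc.add (hd.mul ht)) (by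
      refine (congrArg (IsAlgebraic ℚ) ?_).mp h
      rw [Fin.sum_univ_two, hst]
      simp only [Matrix.cons_val_zero, Matrix.cons_val_one]
      push_cast
      ring)
    have hb' : b + d * s = 0 := h1.2 0
    have hc' : c + d * t = 0 := h1.2 1
    have hd0 : d ≠ 0 := by
      intro h0
      rw [h0, zero_mul, add_zero] at hb' hc'
      rcases hne with h2 | h2 | h2 | h2
      · exact h2 h1.1
      · exact h2 hb'
      · exact h2 hc'
      · exact h2 h0
    refine ⟨h1.1, hd0, ⟨-s, ?_⟩, ⟨-t, ?_⟩, ?_⟩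
    · push_cast
      linear_combination hb'
    · push_cast
      linear_combination hc'
    · rw [hst]
      simp only [Complex.ofReal_add, Complex.ofReal_mul, Complex.ofReal_ratCast]
      linear_combination ((Real.exp 1 : ℝ) : ℂ) * hb' +
        ((Real.exp 1 : ℝ) : ℂ) * ((Real.log Real.pi : ℝ) : ℂ) * hc'

/-- The first consequence: `1`, `π`, `e`, `e log π` are linearly independent. -/
theorem of_CDE_e (hC : IsAlgebraic ℚ (Real.pi ^ Real.exp 1))
    (hD : IsAlgebraic ℚ (Real.exp 1 ^ Real.exp 1)) (hE : IsAlgebraic ℚ (Real.pi ^ Real.pi))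
    {a b c : ℂ} (ha : IsAlgebraic ℚ a) (hb : IsAlgebraic ℚ b) (hc : IsAlgebraic ℚ c)
    (hne : a ≠ 0 ∨ b ≠ 0 ∨ c ≠ 0) :
    Transcendental ℚ (a * (Real.pi : ℂ) + b * (Real.exp 1 : ℝ) +
      c * ((Real.exp 1 * Real.log Real.pi : ℝ) : ℂ)) := by
  have h := of_CDE hC hD hE ha hb hc isAlgebraic_zero (d := 0) (by tauto)
  rw [zero_mul, add_zero] at h
  rcases h with h | h
  · exact h
  · exact absurd rfl h.2.1

/-- The second consequence: `1`, `π`, `e log π`, `π log π` are linearly independent. -/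
theorem of_CDE_pi (hC : IsAlgebraic ℚ (Real.pi ^ Real.exp 1))
    (hD : IsAlgebraic ℚ (Real.exp 1 ^ Real.exp 1)) (hE : IsAlgebraic ℚ (Real.pi ^ Real.pi))
    {a c d : ℂ} (ha : IsAlgebraic ℚ a) (hc : IsAlgebraic ℚ c) (hd : IsAlgebraic ℚ d)
    (hne : a ≠ 0 ∨ c ≠ 0 ∨ d ≠ 0) :
    Transcendental ℚ (a * (Real.pi : ℂ) + c * ((Real.exp 1 * Real.log Real.pi : ℝ) : ℂ) +
      d * ((Real.pi * Real.log Real.pi : ℝ) : ℂ)) := by
  have h := of_CDE hC hD hE ha isAlgebraic_zero hc hd (b := 0) (by tauto)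
  rw [zero_mul, add_zero] at h
  rcases h with h | ⟨-, hd0, -, ⟨q, hq⟩, h⟩
  · exact h
  · exfalso
    rw [hq, zero_add] at h
    have h1 : d * (((Real.log Real.pi : ℝ) : ℂ) * ((q : ℂ) * (Real.exp 1 : ℝ) + (Real.pi : ℂ))) =
        0 := by
      rw [← h]
      push_cast
      ring
    have h2 := (mul_eq_zero.1 h1).resolve_left hd0
    have h3 := (mul_eq_zero.1 h2).resolve_left (by exact_mod_cast log_pi_pos.ne')
    have h4 : (q : ℝ) * Real.exp 1 + Real.pi = 0 := by exact_mod_cast h3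
    have hq0 : (q : ℝ) ≠ 0 := by
      intro h0
      rw [h0, zero_mul, zero_add] at h4
      exact Real.pi_ne_zero h4
    rw [powD] at hD
    refine not_rat_mul_pi (x := Real.exp 1) (Real.exp_pos 1).ne' hD (-1 / q) ?_
    push_cast
    field_simp
    linear_combination h4

/-- `log π` is transcendental. -/
theorem log_pi_transcendental (hC : IsAlgebraic ℚ (Real.pi ^ Real.exp 1))
    (hD : IsAlgebraic ℚ (Real.exp 1 ^ Real.exp 1)) (hE : IsAlgebraic ℚ (Real.pi ^ Real.pi)) :
    Transcendental ℚ (Real.log Real.pi) := by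
  intro h
  have h1 := of_CDE_e hC hD hE isAlgebraic_zero (a := 0) (b := -((Real.log Real.pi : ℝ) : ℂ))
    (c := 1) (BakerK.isAlgebraic_ofReal h).neg isAlgebraic_one (Or.inr (Or.inr one_ne_zero))
  apply h1
  have h2 : (0 : ℂ) * (Real.pi : ℂ) + -((Real.log Real.pi : ℝ) : ℂ) * (Real.exp 1 : ℝ) +
      1 * ((Real.exp 1 * Real.log Real.pi : ℝ) : ℂ) = 0 := by
    push_cast
    ring
  rw [h2]
  exact isAlgebraic_zero

/-- `e / π` is transcendental if `e ^ e` is algebraic. -/
theorem e_div_pi_transcendental (hD : IsAlgebraic ℚ (Real.exp 1 ^ Real.exp 1)) :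
    Transcendental ℚ (Real.exp 1 / Real.pi) := by
  intro h
  have h1 := of_D hD (a := ((Real.exp 1 / Real.pi : ℝ) : ℂ)) (b := -1)
    (BakerK.isAlgebraic_ofReal h) isAlgebraic_one.neg (Or.inr (by simp))
  apply h1
  have hpi : (Real.pi : ℂ) ≠ 0 := by exact_mod_cast Real.pi_ne_zero
  have h2 : ((Real.exp 1 / Real.pi : ℝ) : ℂ) * (Real.pi : ℂ) + -1 * (Real.exp 1 : ℝ) = 0 := by
    rw [Complex.ofReal_div]
    field_simp
    ring
  rw [h2]
  exact isAlgebraic_zero

private theorem log_zpow_mul_zpow {x y : ℝ} (hx : 0 < x) (hy : 0 < y) {m n : ℤ}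
    (h : x ^ m * y ^ n = 1) : (m : ℝ) * Real.log x + n * Real.log y = 0 := by
  have h1 := congrArg Real.log h
  rwa [Real.log_mul (zpow_ne_zero _ hx.ne') (zpow_ne_zero _ hy.ne'), Real.log_zpow, Real.log_zpow,
    Real.log_one] at h1

/-- If `π ^ π` is algebraic, then `π ^ e` and `e ^ e` are multiplicatively independent. -/
theorem mul_independent_CD (hE : IsAlgebraic ℚ (Real.pi ^ Real.pi)) {m n : ℤ}
    (h : (Real.pi ^ Real.exp 1) ^ m * (Real.exp 1 ^ Real.exp 1) ^ n = 1) : m = 0 ∧ n = 0 := by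
  have h1 := log_zpow_mul_zpow (Real.rpow_pos_of_pos Real.pi_pos _)
    (Real.rpow_pos_of_pos (Real.exp_pos 1) _) h
  rw [Real.log_rpow Real.pi_pos, Real.log_rpow (Real.exp_pos 1), Real.log_exp, mul_one] at h1
  have h2 := LinearIndependent.pair_iff.1 (ind_CD (log_pi_ne_rat hE)) (n : ℚ) (m : ℚ) (by
    rw [Rat.smul_def, Rat.smul_def]
    push_cast
    linear_combination h1)
  exact ⟨by exact_mod_cast h2.2, by exact_mod_cast h2.1⟩

/-- If `e ^ e` is algebraic, then `π ^ e` and `π ^ π` are multiplicatively independent. -/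
theorem mul_independent_CE (hD : IsAlgebraic ℚ (Real.exp 1 ^ Real.exp 1)) {m n : ℤ}
    (h : (Real.pi ^ Real.exp 1) ^ m * (Real.pi ^ Real.pi) ^ n = 1) : m = 0 ∧ n = 0 := by
  have h1 := log_zpow_mul_zpow (Real.rpow_pos_of_pos Real.pi_pos _)
    (Real.rpow_pos_of_pos Real.pi_pos _) h
  rw [Real.log_rpow Real.pi_pos, Real.log_rpow Real.pi_pos] at h1
  have h2 : (m : ℝ) * Real.exp 1 + n * Real.pi = 0 := by
    have h3 : Real.log Real.pi * ((m : ℝ) * Real.exp 1 + n * Real.pi) = 0 := by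
      linear_combination h1
    exact (mul_eq_zero.1 h3).resolve_left log_pi_pos.ne'
  by_cases hm : m = 0
  · rw [hm, Int.cast_zero, zero_mul, zero_add] at h2
    exact ⟨hm, by exact_mod_cast (mul_eq_zero.1 h2).resolve_right Real.pi_ne_zero⟩
  · exfalso
    have hm' : (m : ℝ) ≠ 0 := by exact_mod_cast hm
    rw [powD] at hD
    refine not_rat_mul_pi (x := Real.exp 1) (Real.exp_pos 1).ne' hD (-n / m) ?_
    push_cast
    field_simp
    linear_combination h2

end Pool.Agent.BakerH
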